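import Pool.Agent.TH981.SD.Stm

set_option autoImplicit false

open Pool.Agent.TH981.SD
open Finset Set Filter
open scoped BigOperators Topology Classical

namespace Pool.Agent.TH175.J2241

theorem lam_pos (α : ℝ) {d : ℕ} (hd : 1 ≤ d) : 0 < lam α d := by
  unfold lam
  exact Real.rpow_pos_of_pos (by exact_mod_cast hd) α

theorem lam_le (α : ℝ) (h1 : α < 1) {d : ℕ} (hd : 1 ≤ d) : lam α d ≤ d := by
  unfold lam
  have h : (1 : ℝ) ≤ d := by exact_mod_cast hd
  calc (d : ℝ) ^ α ≤ (d : ℝ) ^ (1 : ℝ) := Real.rpow_le_rpow_of_exponent_le h h1.le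
    _ = d := Real.rpow_one _

theorem lam_mono (α : ℝ) (h0 : 0 < α) {d d' : ℕ} (hd : d ≤ d') : lam α d ≤ lam α d' := by
  unfold lam
  exact Real.rpow_le_rpow (by positivity) (by exact_mod_cast hd) h0.le

/-- the numerical condition on `D` -/
def Cond (c3 C1 e : ℝ) (m : ℕ) (D : ℝ) : Prop :=
  8 ≤ D ∧ (m : ℝ) ≤ D ∧ C1 ≤ D ∧ (13 + 3 * (m : ℝ)) * Real.log D ≤ c3 * D ^ e ∧
    8 * Real.exp (e * C1) ≤ D ^ (3 * e)

theorem cond_eventually (c3 C1 e : ℝ) (m : ℕ) (hc : 0 < c3) (he : 0 < e) :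
    ∀ᶠ D : ℝ in atTop, Cond c3 C1 e m D := by
  have h1 : ∀ᶠ D : ℝ in atTop, (13 + 3 * (m : ℝ)) * Real.log D ≤ c3 * D ^ e := by
    have h := (isLittleO_log_rpow_atTop he).bound (show 0 < c3 / (13 + 3 * (m : ℝ)) by positivity)
    filter_upwards [h, eventually_ge_atTop 1] with D hD hD1
    rw [Real.norm_of_nonneg (Real.log_nonneg hD1), Real.norm_of_nonneg (by positivity)] at hD
    have hm : (0 : ℝ) < 13 + 3 * (m : ℝ) := by positivity
    calc (13 + 3 * (m : ℝ)) * Real.log D ≤ (13 + 3 * (m : ℝ)) * (c3 / (13 + 3 * (m : ℝ)) * D ^ e) :=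
          mul_le_mul_of_nonneg_left hD hm.le
      _ = c3 * D ^ e := by field_simp
  have h2 : ∀ᶠ D : ℝ in atTop, 8 * Real.exp (e * C1) ≤ D ^ (3 * e) :=
    (tendsto_rpow_atTop (show 0 < 3 * e by positivity)).eventually_ge_atTop _
  filter_upwards [h1, h2, eventually_ge_atTop 8, eventually_ge_atTop (m : ℝ),
    eventually_ge_atTop C1] with D h1 h2 h3 h4 h5
  exact ⟨h3, h4, h5, h1, h2⟩

/-- the tail estimate -/
theorem tail_bound {c3 C1 e D K : ℝ} {m n1 : ℕ} (he : 0 < e) (he1 : e < 1) (hC1 : 0 ≤ C1)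
    (hc : Cond c3 C1 e m D) (hK1 : 1 ≤ K) (hKD : K ≤ D) (hn1 : (n1 : ℝ) ≤ D ^ (1 - e) + 1) :
    (n1 : ℝ) * (2 * ((m : ℝ) + n1) * (1 + (1 + K) * (Real.log K + C1 + 2 * Real.log D))) ^ n1 *
      2 ^ m ≤ Real.exp (c3 * D - 2 * m * Real.log D) / 2 := by
  obtain ⟨h8, hm, hCD, hlog, -⟩ := hc
  have hD1 : 1 ≤ D := by linarith
  have hD0 : 0 < D := by linarith
  have hL1 : 1 ≤ Real.log D := by
    rw [Real.le_log_iff_exp_le hD0]
    have := Real.exp_one_lt_d9
    linarith
  have hLD : Real.log D ≤ D := by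
    have := Real.log_le_sub_one_of_pos hD0
    linarith
  have hLK : Real.log K ≤ Real.log D := Real.log_le_log (by linarith) hKD
  have hLK0 : 0 ≤ Real.log K := Real.log_nonneg hK1
  have hp1 : 1 ≤ D ^ (1 - e) := Real.one_le_rpow hD1 (by linarith)
  have hpD : D ^ (1 - e) ≤ D := by
    calc D ^ (1 - e) ≤ D ^ (1 : ℝ) := Real.rpow_le_rpow_of_exponent_le hD1 (by linarith)
      _ = D := Real.rpow_one _
  have hn2 : (n1 : ℝ) ≤ 2 * D ^ (1 - e) := by linarith
  have hnD : (n1 : ℝ) ≤ 2 * D := by linarith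
  have hn0 : (0 : ℝ) ≤ n1 := Nat.cast_nonneg _
  have hm0 : (0 : ℝ) ≤ m := Nat.cast_nonneg _
  have hA : 1 + (1 + K) * (Real.log K + C1 + 2 * Real.log D) ≤ 9 * D ^ 2 := by
    have h1 : Real.log K + C1 + 2 * Real.log D ≤ 4 * D := by linarith
    have h2 : 1 + K ≤ 2 * D := by linarith
    have h3 : (1 + K) * (Real.log K + C1 + 2 * Real.log D) ≤ (2 * D) * (4 * D) :=
      mul_le_mul h2 h1 (by positivity) (by positivity)
    nlinarith
  have hA0 : 0 ≤ 1 + (1 + K) * (Real.log K + C1 + 2 * Real.log D) := by positivity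
  have hB : 2 * ((m : ℝ) + n1) * (1 + (1 + K) * (Real.log K + C1 + 2 * Real.log D)) ≤ D ^ 5 := by
    calc 2 * ((m : ℝ) + n1) * (1 + (1 + K) * (Real.log K + C1 + 2 * Real.log D))
        ≤ (2 * (3 * D)) * (9 * D ^ 2) :=
          mul_le_mul (by linarith) hA hA0 (by positivity)
      _ = 54 * D ^ 3 := by ring
      _ ≤ D ^ 2 * D ^ 3 := mul_le_mul_of_nonneg_right (by nlinarith) (by positivity)
      _ = D ^ 5 := by ring
  have hpow : (2 * ((m : ℝ) + n1) * (1 + (1 + K) * (Real.log K + C1 + 2 * Real.log D))) ^ n1 ≤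
      Real.exp (10 * Real.log D * D ^ (1 - e)) := by
    calc _ ≤ (D ^ 5) ^ n1 := pow_le_pow_left₀ (by positivity) hB n1
      _ = Real.exp (5 * Real.log D * n1) := by
          have : D = Real.exp (Real.log D) := (Real.exp_log hD0).symm
          conv_lhs => rw [this]
          rw [← pow_mul, ← Real.exp_nat_mul]
          congr 1
          push_cast
          ring
      _ ≤ _ := Real.exp_le_exp.2 (by nlinarith)
  have h2m : (2 : ℝ) ^ m ≤ Real.exp m := by
    rw [show Real.exp (m : ℝ) = (Real.exp 1) ^ m by rw [← Real.exp_nat_mul, mul_one]]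
    apply pow_le_pow_left₀ (by norm_num)
    have := Real.add_one_le_exp (1 : ℝ)
    linarith
  have hn3 : (n1 : ℝ) ≤ Real.exp (1 + Real.log D) := by
    rw [Real.exp_add, Real.exp_log hD0]
    have := Real.add_one_le_exp (1 : ℝ)
    nlinarith
  have hfin : 1 + Real.log D + 10 * Real.log D * D ^ (1 - e) + m + 1 ≤
      c3 * D - 2 * m * Real.log D := by
    have h4 : (13 + 3 * (m : ℝ)) * Real.log D * D ^ (1 - e) ≤ c3 * D := by
      calc (13 + 3 * (m : ℝ)) * Real.log D * D ^ (1 - e) ≤ c3 * D ^ e * D ^ (1 - e) :=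
            mul_le_mul_of_nonneg_right hlog (by positivity)
        _ = c3 * D := by
            rw [mul_assoc, ← Real.rpow_add hD0]
            simp
    have h5 : 1 ≤ Real.log D * D ^ (1 - e) := by nlinarith
    have h6 : Real.log D ≤ Real.log D * D ^ (1 - e) := by nlinarith
    have h7 : (m : ℝ) ≤ m * (Real.log D * D ^ (1 - e)) := by nlinarith
    have h8 : (m : ℝ) * Real.log D ≤ m * (Real.log D * D ^ (1 - e)) := by nlinarith
    nlinarith
  calc (n1 : ℝ) * (2 * ((m : ℝ) + n1) * (1 + (1 + K) *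
        (Real.log K + C1 + 2 * Real.log D))) ^ n1 * 2 ^ m
      ≤ Real.exp (1 + Real.log D) * Real.exp (10 * Real.log D * D ^ (1 - e)) * Real.exp m := by
        gcongr
    _ = Real.exp (1 + Real.log D + 10 * Real.log D * D ^ (1 - e) + m) := by
        rw [← Real.exp_add, ← Real.exp_add]
    _ ≤ Real.exp (c3 * D - 2 * m * Real.log D - 1) := Real.exp_le_exp.2 (by linarith)
    _ ≤ Real.exp (c3 * D - 2 * m * Real.log D) / 2 := by
        rw [Real.exp_sub, div_le_div_iff_of_pos_left (Real.exp_pos _) (Real.exp_pos _) (by norm_num)]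
        have := Real.add_one_le_exp (1 : ℝ)
        linarith

/-- `V_m(t) ≥ e^{-λ_m (t - a)} V_m(a)` -/
theorem V_lower {α K : ℝ} {Y V : ℕ → ℝ → ℝ} (hV : IsV α Y K V)
    (hc : ∀ s, 0 ≤ s → 0 ≤ cc Y K s) (m : ℕ) {a t : ℝ} (ha : 0 ≤ a) (hat : a ≤ t) :
    Real.exp (-(lam α m * (t - a))) * V m a ≤ V m t := by
  have hl : 0 ≤ lam α m := by unfold lam; positivity
  have hcont : ContinuousOn (fun s => Real.exp (lam α m * s) * V m s) (Set.Ici a) := by
    intro s hs
    have hs0 : 0 ≤ s := ha.trans hs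
    have h1 := ((hV.deriv m s hs0).continuousWithinAt).mono (Set.Ici_subset_Ici.2 ha)
    exact (by fun_prop : Continuous fun s => Real.exp (lam α m * s)).continuousWithinAt.mul h1
  have hder : ∀ s ∈ interior (Set.Ici a), HasDerivAt (fun s => Real.exp (lam α m * s) * V m s)
      (Real.exp (lam α m * s) * (lam α m * (cc Y K s * V (m + 1) s))) s := by
    intro s hs
    rw [interior_Ici] at hs
    have hs0 : 0 < s := lt_of_le_of_lt ha hs
    have h1 : HasDerivAt (V m) (lam α m * (cc Y K s * V (m + 1) s - V m s)) s :=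
      (hV.deriv m s hs0.le).hasDerivAt (Ici_mem_nhds hs0)
    have h2 : HasDerivAt (fun s => Real.exp (lam α m * s)) (Real.exp (lam α m * s) * lam α m) s := by
      have := ((hasDerivAt_id s).const_mul (lam α m)).exp
      simpa using this
    exact (h2.mul h1).congr_deriv (by ring)
  have hmono : MonotoneOn (fun s => Real.exp (lam α m * s) * V m s) (Set.Ici a) := by
    apply monotoneOn_of_deriv_nonneg (convex_Ici a) hcont
      (fun s hs => (hder s hs).differentiableAt.differentiableWithinAt)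
    intro s hs
    rw [(hder s hs).deriv]
    rw [interior_Ici] at hs
    have hs0 : 0 ≤ s := (lt_of_le_of_lt ha hs).le
    exact mul_nonneg (Real.exp_pos _).le (mul_nonneg hl (mul_nonneg (hc s hs0)
      (hV.pos (m + 1) s hs0).le))
  have h := hmono (Set.mem_Ici.2 le_rfl) (Set.mem_Ici.2 hat) hat
  simp only at h
  have h3 : Real.exp (-(lam α m * (t - a))) = Real.exp (lam α m * a) * (Real.exp (lam α m * t))⁻¹ := by
    rw [← Real.exp_neg, ← Real.exp_add]
    congr 1
    ring
  rw [h3, mul_right_comm, ← div_eq_mul_inv, div_le_iff₀ (Real.exp_pos _), mul_comm (V m t)]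
  exact h

theorem DK_tendsto {α : ℝ} (h1 : α < 1) : Tendsto (DK α) atTop atTop := by
  unfold DK
  exact tendsto_rpow_atTop (by
    have : 0 < 1 - α := by linarith
    positivity)

theorem bet_nonneg {α : ℝ} (h0 : 0 < α) (h1 : α < 1) : 0 ≤ bet α := by
  unfold bet
  have h2 : (1 : ℝ) ≤ (2 : ℝ) ^ α := Real.one_le_rpow (by norm_num) h0.le
  have h3 : (2 : ℝ) ^ α ≤ 2 := by
    calc (2 : ℝ) ^ α ≤ (2 : ℝ) ^ (1 : ℝ) := Real.rpow_le_rpow_of_exponent_le (by norm_num) h1.le
      _ = 2 := Real.rpow_one _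
  apply div_nonneg <;> linarith

theorem hm (h1 : S_YF) (h2 : S_TM) (h3 : S_MONO) (h4 : S_EARLY) (h5 : S_EXP) (h6 : S_GROW) :
    S_HM := by
  intro α e m ha0 ha1 he0 he1 hm hlam
  obtain ⟨C1, hC1, hEarly⟩ := h4 α ha0 ha1
  obtain ⟨c3, hc3, K00, hK00, hGrow⟩ := h6 α ha0 ha1
  have hev : ∀ᶠ K in atTop, Cond c3 C1 e m (DK α K) :=
    (DK_tendsto ha1).eventually (cond_eventually c3 C1 e m hc3 he0)
  obtain ⟨K1, hK1⟩ := eventually_atTop.1 hev
  refine ⟨max K00 K1, hK00.trans (le_max_left _ _), fun K hK => ?_⟩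
  have hKK : K00 ≤ K := (le_max_left _ _).trans hK
  have hK2 : 2 ≤ K := hK00.trans hKK
  have hcond := hK1 K ((le_max_right _ _).trans hK)
  have hlogK : 0 ≤ Real.log K := Real.log_nonneg (by linarith)
  have hbet := bet_nonneg ha0 ha1
  have hexp : 0 < (1 + bet α) * (1 + Real.log K + C1) := by positivity
  set R := Real.exp ((1 + bet α) * (1 + Real.log K + C1)) with hR
  have hR1 : 1 < R := by rw [hR]; exact Real.one_lt_exp_iff.2 hexp
  refine ⟨R / (1 + R), ?_, ?_, ?_⟩
  · rw [div_lt_div_iff₀ (by norm_num) (by linarith)]; linarith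
  · rw [div_lt_one (by linarith)]; linarith
  intro z Y V tM hz hz1 hY hV htM0 htM t ht1 ht2
  have hzh : 1 / 2 < z := by
    refine lt_trans ?_ hz
    rw [div_lt_div_iff₀ (by norm_num) (by linarith)]; linarith
  have hz0 : 0 < z := by linarith
  -- the median time is large
  obtain ⟨hTa, hTb, hTc⟩ := (h2 α z Y ha0 ha1 hzh hz1 hY).2 tM htM0 htM
  have htMbig : 1 + Real.log K + C1 ≤ tM := by
    have h7 : (1 + bet α) * (1 + Real.log K + C1) ≤ Real.log (z / (1 - z)) := by
      rw [Real.le_log_iff_exp_le (div_pos hz0 (by linarith)), le_div_iff₀ (by linarith)]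
      rw [div_lt_iff₀ (by linarith)] at hz
      rw [← hR]
      have h9 : z * (1 + R) = z + R * z := by ring
      have h10 : R * (1 - z) = R - R * z := by ring
      rw [h9] at hz
      rw [h10]
      linarith
    have h8 := h7.trans hTa
    exact le_of_mul_le_mul_left h8 (by linarith)
  obtain ⟨hYdec, -, -, hm1, -, hYanti, -⟩ := h1 α z Y ha0 ha1 hz0 hz1 hY
  have hy0 : ∀ s, 0 ≤ s → 0 < Y 1 s := fun s hs => hY.pos 1 s hs
  have hy1 : ∀ s, 0 ≤ s → Y 1 s ≤ 1 := fun s hs => (hY.le 1 s hs).trans hz1.le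
  have hm10 : ∀ s, 0 ≤ s → 0 ≤ m1 Y s := fun s hs =>
    (mul_nonneg (hy0 s hs).le (by linarith [hy1 s hs])).trans (hm1 s hs).1
  have hcc0 : ∀ s, 0 ≤ s → 0 ≤ cc Y K s := by
    intro s hs
    unfold cc
    have := hm10 s hs
    have := hy0 s hs
    positivity
  have hcc1 : ∀ s, 0 ≤ s → cc Y K s ≤ 1 + K := by
    intro s hs
    unfold cc
    have h8 : m1 Y s ≤ 1 := (hm1 s hs).2.trans (hy1 s hs)
    have h9 := hy1 s hs
    have h10 := mul_le_mul_of_nonneg_left h8 (by linarith : (0 : ℝ) ≤ K)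
    linarith
  set D := DK α K with hD
  have h1a : 0 < 1 - α := by linarith
  have hL : LK α K = Real.log D := by
    rw [hD]
    unfold LK DK
    rw [Real.log_rpow (by linarith)]
    ring
  have hKD : K ≤ D := by
    rw [hD]
    unfold DK
    calc K = K ^ (1 : ℝ) := (Real.rpow_one K).symm
      _ ≤ K ^ (1 / (1 - α)) := by
          apply Real.rpow_le_rpow_of_exponent_le (by linarith)
          rw [le_div_iff₀ h1a]
          linarith
  have hKeq : K = D ^ (1 - α) := by
    rw [hD]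
    unfold DK
    rw [← Real.rpow_mul (by linarith), one_div, inv_mul_cancel₀ h1a.ne', Real.rpow_one]
  obtain ⟨h8, hmD, hCD, hlogc, hEc⟩ := hcond
  have hD0 : 0 < D := by linarith
  have hD1 : 1 ≤ D := by linarith
  have hLD0 : 0 ≤ Real.log D := Real.log_nonneg hD1
  set a0 := tM - Real.log K - C1 with ha0'
  have ha00 : 0 ≤ a0 := by linarith
  have ha0t : a0 ≤ tM := by linarith
  have ha0t' : a0 ≤ t := by linarith
  obtain ⟨v, hv0, hvsum, hvz, hvup, hvlow, hvr2, hvr1⟩ := h5 α z K a0 Y V ha0 ha1 hz0 hz1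
    (by linarith) ha00 hY hV
  have hE := hEarly K z Y V tM hK2 hzh hz1 hY hV htM0 htM a0 ha00 le_rfl
  have hM := h3 α z K Y V ha0 ha1 hz0 hz1 (by linarith) hY hV tM htM0 (by rw [htM]; linarith)
  have hVa0 : ∀ d, 1 ≤ d → V d a0 ≤ V (d + 1) a0 := fun d hd => ((hM a0 ha00 ha0t).2 d hd).1
  have hV2 : ∀ d, 1 ≤ d → V d a0 ≤ 2 ^ d := by
    intro d hd
    induction d, hd using Nat.le_induction with
    | base => simpa using hE.1
    | succ k hk ih =>
      calc V (k + 1) a0 ≤ 2 * V k a0 := hE.2 k hk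
        _ ≤ 2 * 2 ^ k := by linarith
        _ = 2 ^ (k + 1) := by ring
  have hVM : Real.exp (c3 * D) ≤ V m tM := by
    have h9 : Real.exp (c3 * D) ≤ V 1 tM := hGrow K z Y V tM hKK hzh hz1 hY hV (by linarith) htM
    have h10 : ∀ d, 1 ≤ d → V 1 tM ≤ V d tM := by
      intro d hd
      induction d, hd using Nat.le_induction with
      | base => exact le_rfl
      | succ k hk ih => exact ih.trans ((hM tM htM0 le_rfl).2 k hk).1
    exact h9.trans (h10 m hm)
  -- lower bound for `V m t`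
  have hlm1 : lam α m ≤ m := lam_le α ha1 hm
  have hlm0 : 0 < lam α m := lam_pos α hm
  have hVm : Real.exp (c3 * D - 2 * m * Real.log D) ≤ V m t := by
    have h9 := V_lower hV hcc0 m htM0 ht1
    refine le_trans ?_ h9
    calc Real.exp (c3 * D - 2 * m * Real.log D) =
          Real.exp (-(2 * m * Real.log D)) * Real.exp (c3 * D) := by
          rw [← Real.exp_add]; congr 1; ring
      _ ≤ Real.exp (-(lam α m * (t - tM))) * V m tM := by
          apply mul_le_mul _ hVM (Real.exp_pos _).le (Real.exp_pos _).le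
          apply Real.exp_le_exp.2
          have h10 : t - tM ≤ 2 * Real.log D := by rw [← hL]; linarith
          have h11 : lam α m * (t - tM) ≤ m * (2 * Real.log D) :=
            mul_le_mul hlm1 h10 (by linarith) (Nat.cast_nonneg _)
          linarith
  -- the integral of `c`
  set I := ∫ s in a0..t, cc Y K s with hI
  have hta0 : t - a0 ≤ Real.log K + C1 + 2 * Real.log D := by
    rw [← hL, ha0']; linarith
  have hIabs : |I| ≤ (1 + K) * (Real.log K + C1 + 2 * Real.log D) := by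
    have h9 : ‖∫ s in a0..t, cc Y K s‖ ≤ (1 + K) * |t - a0| := by
      apply intervalIntegral.norm_integral_le_of_norm_le_const
      intro s hs
      rw [Set.uIoc_of_le ha0t'] at hs
      have hs0 : 0 ≤ s := ha00.trans hs.1.le
      rw [Real.norm_of_nonneg (hcc0 s hs0)]
      exact hcc1 s hs0
    rw [abs_of_nonneg (by linarith : 0 ≤ t - a0)] at h9
    exact h9.trans (mul_le_mul_of_nonneg_left hta0 (by linarith))
  -- the cut-off
  set n1 := ⌈D ^ (1 - e)⌉₊ with hn1
  have hn1a : D ^ (1 - e) ≤ n1 := Nat.le_ceil _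
  have hn1b : (n1 : ℝ) ≤ D ^ (1 - e) + 1 := (Nat.ceil_lt_add_one (by positivity)).le
  have hn1pos : 1 ≤ n1 := by
    have : (0 : ℝ) < n1 := lt_of_lt_of_le (Real.rpow_pos_of_pos hD0 _) hn1a
    exact_mod_cast this
  have htail := tail_bound (c3 := c3) (C1 := C1) (K := K) (n1 := n1) he0 he1 hC1
    ⟨h8, hmD, hCD, hlogc, hEc⟩ (by linarith) hKD hn1b
  set Ch := (1 + K) * (Real.log K + C1 + 2 * Real.log D) with hCh
  have hCh0 : 0 ≤ Ch := by positivity
  have hbase : 1 ≤ 2 * ((m : ℝ) + n1) * (1 + Ch) := by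
    have h9 : (1 : ℝ) ≤ m := by exact_mod_cast hm
    have h10 : (1 : ℝ) ≤ n1 := by exact_mod_cast hn1pos
    exact one_le_mul_of_one_le_of_one_le (by linarith) (by linarith)
  have hterm : ∀ n ∈ Finset.range n1, v m n t ≤ (2 * ((m : ℝ) + n1) * (1 + Ch)) ^ n1 * 2 ^ m := by
    intro n hn
    rw [Finset.mem_range] at hn
    have h9 := hvup m n t ha0t'
    refine h9.trans ?_
    have hp : ∏ i ∈ Finset.range n, lam α (m + i) ≤ ((m : ℝ) + n1) ^ n := by
      calc ∏ i ∈ Finset.range n, lam α (m + i) ≤ ∏ _i ∈ Finset.range n, ((m : ℝ) + n1) := by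
            apply Finset.prod_le_prod
            · intro i _; exact (lam_pos α (by omega)).le
            · intro i hi
              rw [Finset.mem_range] at hi
              refine (lam_le α ha1 (by omega)).trans ?_
              push_cast
              have : (i : ℝ) ≤ n1 := by exact_mod_cast (by omega : i ≤ n1)
              linarith
        _ = ((m : ℝ) + n1) ^ n := by simp
    have hI2 : I ^ n ≤ (1 + Ch) ^ n := by
      calc I ^ n ≤ |I| ^ n := by rw [← abs_pow]; exact le_abs_self _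
        _ ≤ (1 + Ch) ^ n := pow_le_pow_left₀ (abs_nonneg _) (by linarith) n
    have hp0 : 0 ≤ ∏ i ∈ Finset.range n, lam α (m + i) :=
      Finset.prod_nonneg fun i _ => (lam_pos α (by omega)).le
    have hVa : 0 ≤ V (m + n) a0 := (hV.pos _ _ ha00).le
    have hfac : (1 : ℝ) ≤ (n.factorial : ℝ) := by exact_mod_cast Nat.factorial_pos n
    have hIn0 : 0 ≤ I := by
      apply intervalIntegral.integral_nonneg ha0t'
      intro s hs
      exact hcc0 s (ha00.trans hs.1)
    calc (∏ i ∈ Finset.range n, lam α (m + i)) * I ^ n / (n.factorial : ℝ) * V (m + n) a0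
        ≤ (∏ i ∈ Finset.range n, lam α (m + i)) * I ^ n * V (m + n) a0 := by
          apply mul_le_mul_of_nonneg_right _ hVa
          exact div_le_self (by positivity) hfac
      _ ≤ (((m : ℝ) + n1) ^ n * (1 + Ch) ^ n) * 2 ^ (m + n) := by
          apply mul_le_mul _ (hV2 (m + n) (by omega)) hVa (by positivity)
          exact mul_le_mul hp hI2 (by positivity) (by positivity)
      _ = (2 * ((m : ℝ) + n1) * (1 + Ch)) ^ n * 2 ^ m := by
          rw [pow_add, mul_pow, mul_pow]; ring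
      _ ≤ (2 * ((m : ℝ) + n1) * (1 + Ch)) ^ n1 * 2 ^ m := by
          apply mul_le_mul_of_nonneg_right _ (by positivity)
          exact pow_le_pow_right₀ hbase (by omega)
  have hhead : ∑ n ∈ Finset.range n1, v m n t ≤ V m t / 2 := by
    calc ∑ n ∈ Finset.range n1, v m n t
        ≤ ∑ _n ∈ Finset.range n1, (2 * ((m : ℝ) + n1) * (1 + Ch)) ^ n1 * 2 ^ m :=
          Finset.sum_le_sum hterm
      _ = (n1 : ℝ) * (2 * ((m : ℝ) + n1) * (1 + Ch)) ^ n1 * 2 ^ m := by
          rw [Finset.sum_const, Finset.card_range, nsmul_eq_mul]; ring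
      _ ≤ Real.exp (c3 * D - 2 * m * Real.log D) / 2 := htail
      _ ≤ V m t / 2 := by linarith
  -- the tail
  have hsm := hvsum m t ha0t'
  have hsm1 := hvsum (m + 1) t ha0t'
  have hsplit := hsm.summable.sum_add_tsum_nat_add n1
  rw [hsm.tsum_eq] at hsplit
  have hsplit1 := hsm1.summable.sum_add_tsum_nat_add n1
  rw [hsm1.tsum_eq] at hsplit1
  have htail0 : V m t / 2 ≤ ∑' n, v m (n + n1) t := by linarith
  have hln : D ^ (α * (1 - e)) ≤ lam α n1 := by
    unfold lam
    calc D ^ (α * (1 - e)) = (D ^ (1 - e)) ^ α := by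
          rw [← Real.rpow_mul hD0.le]; congr 1; ring
      _ ≤ (n1 : ℝ) ^ α := Real.rpow_le_rpow (by positivity) hn1a ha0.le
  have hcmp : ∀ n, Real.exp (-(e * (t - a0))) * lam α n1 * v m (n + n1) t ≤
      lam α m * v (m + 1) (n + n1) t := by
    intro n
    refine le_trans ?_ (hvr1 hVa0 m (n + n1) t hm ha0t')
    have h10 : lam α n1 ≤ lam α (m + (n + n1)) := lam_mono α ha0 (by omega)
    have h11 : Real.exp (-(e * (t - a0))) ≤
        Real.exp (-((lam α (m + 1) - lam α m) * (t - a0))) := by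
      apply Real.exp_le_exp.2
      have := mul_le_mul_of_nonneg_right hlam (by linarith : 0 ≤ t - a0)
      linarith
    have h12 : 0 ≤ v m (n + n1) t := hv0 m (n + n1) t ha0t'
    have h13 : 0 < lam α n1 := lam_pos α hn1pos
    calc Real.exp (-(e * (t - a0))) * lam α n1 * v m (n + n1) t =
          Real.exp (-(e * (t - a0))) * (lam α n1 * v m (n + n1) t) := by ring
      _ ≤ _ := by gcongr
  have hmain : Real.exp (-(e * (t - a0))) * lam α n1 * (V m t / 2) ≤ lam α m * V (m + 1) t := by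
    have hsn : Summable (fun n => v m (n + n1) t) := (summable_nat_add_iff n1).2 hsm.summable
    have hsn1 : Summable (fun n => v (m + 1) (n + n1) t) :=
      (summable_nat_add_iff n1).2 hsm1.summable
    have h13 : 0 < lam α n1 := lam_pos α hn1pos
    calc Real.exp (-(e * (t - a0))) * lam α n1 * (V m t / 2)
        ≤ Real.exp (-(e * (t - a0))) * lam α n1 * ∑' n, v m (n + n1) t :=
          mul_le_mul_of_nonneg_left htail0 (by positivity)
      _ = ∑' n, Real.exp (-(e * (t - a0))) * lam α n1 * v m (n + n1) t := tsum_mul_left.symm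
      _ ≤ ∑' n, lam α m * v (m + 1) (n + n1) t :=
          (hsn.mul_left _).tsum_le_tsum hcmp (hsn1.mul_left _)
      _ = lam α m * ∑' n, v (m + 1) (n + n1) t := tsum_mul_left
      _ ≤ lam α m * V (m + 1) t := by
          apply mul_le_mul_of_nonneg_left _ hlm0.le
          have : 0 ≤ ∑ n ∈ Finset.range n1, v (m + 1) n t :=
            Finset.sum_nonneg fun n _ => hv0 (m + 1) n t ha0t'
          linarith
  -- lower bound for `c`
  have ht0 : 0 ≤ t := htM0.trans ht1
  have hcl : K * Real.exp (-(t - tM)) / 4 ≤ cc Y K t := by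
    have hyt := (hTb t ht1).1
    have hyh : Y 1 t ≤ 1 / 2 := by
      rw [← htM]
      exact hYanti 1 (Set.mem_Ici.2 htM0) (Set.mem_Ici.2 ht0) ht1
    have h14 := (hm1 t ht0).1
    unfold cc
    have h15 : Real.exp (-(t - tM)) / 4 ≤ m1 Y t := by
      refine le_trans ?_ h14
      have h16 : Real.exp (-(t - tM)) / 2 * (1 / 2) ≤ Y 1 t * (1 - Y 1 t) :=
        mul_le_mul hyt (by linarith) (by norm_num) (hy0 t ht0).le
      linarith
    have h17 := hy0 t ht0
    have h18 := mul_le_mul_of_nonneg_left h15 (by linarith : (0 : ℝ) ≤ K)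
    linarith
  -- conclusion
  have hVt : 0 < V m t := hV.pos m t ht0
  have hVt1 : 0 < V (m + 1) t := hV.pos (m + 1) t ht0
  set x := t - tM with hx
  have hta : t - a0 = x + Real.log K + C1 := by rw [hx, ha0']; ring
  have hstep : (K * Real.exp (-x) / 4) * (Real.exp (-(e * (t - a0))) * D ^ (α * (1 - e)) *
      (V m t / 2)) ≤ lam α m * cc Y K t * V (m + 1) t := by
    calc (K * Real.exp (-x) / 4) * (Real.exp (-(e * (t - a0))) * D ^ (α * (1 - e)) *
          (V m t / 2)) ≤ cc Y K t * (lam α m * V (m + 1) t) := by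
          apply mul_le_mul hcl _ (by positivity) (hcc0 t ht0)
          refine le_trans ?_ hmain
          gcongr
      _ = lam α m * cc Y K t * V (m + 1) t := by ring
  refine le_trans ?_ hstep
  have hexpK : Real.exp (-(e * Real.log K)) = K ^ (-e) := by
    rw [Real.rpow_def_of_pos (by linarith)]
    congr 1
    ring
  have hsplitexp : Real.exp (-(e * (t - a0))) = Real.exp (-(e * x)) * K ^ (-e) *
      Real.exp (-(e * C1)) := by
    rw [← hexpK, ← Real.exp_add, ← Real.exp_add, hta]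
    congr 1
    ring
  have hKe : K * K ^ (-e) * D ^ (α * (1 - e)) = D ^ (1 - e) := by
    have h16 : K * K ^ (-e) = D ^ ((1 - α) * (1 - e)) := by
      have : K * K ^ (-e) = K ^ (1 - e) := by
        rw [show (1 - e) = 1 + (-e) by ring, Real.rpow_add (by linarith), Real.rpow_one]
      rw [this]
      conv_lhs => rw [hKeq]
      rw [← Real.rpow_mul hD0.le]
    rw [h16, ← Real.rpow_add hD0]
    congr 1
    ring
  have hrhs : (K * Real.exp (-x) / 4) * (Real.exp (-(e * (t - a0))) * D ^ (α * (1 - e)) *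
      (V m t / 2)) = (D ^ (1 - e) * Real.exp (-(e * C1)) / 8) * Real.exp (-((1 + e) * x)) *
      V m t := by
    rw [hsplitexp, ← hKe]
    have : Real.exp (-((1 + e) * x)) = Real.exp (-x) * Real.exp (-(e * x)) := by
      rw [← Real.exp_add]; congr 1; ring
    rw [this]
    ring
  rw [hrhs]
  have hfin : D ^ (1 - 4 * e) ≤ D ^ (1 - e) * Real.exp (-(e * C1)) / 8 := by
    have h17 : D ^ (1 - e) = D ^ (1 - 4 * e) * D ^ (3 * e) := by
      rw [← Real.rpow_add hD0]; congr 1; ring
    rw [h17, Real.exp_neg]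
    have h18 : 0 < D ^ (1 - 4 * e) := Real.rpow_pos_of_pos hD0 _
    rw [le_div_iff₀ (by norm_num), mul_assoc, mul_le_mul_iff_of_pos_left h18,
      ← div_eq_mul_inv, le_div_iff₀ (Real.exp_pos _)]
    exact hEc
  gcongr

end Pool.Agent.TH175.J2241
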