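import Pool.Agent.TH981.SD.Stm

set_option autoImplicit false

open Pool.Agent.TH981.SD
open Finset Set Filter
open scoped BigOperators Topology Classical

namespace Pool.Agent.TH175.J2298

noncomputable section

variable {j : ℕ}

/-- derivative of `Am` away from `a1` -/
def Ad (s : Sys j) (t : ℝ) : ℝ := if t < s.a1 then (2:ℝ) ^ (j + 6) * s.D * m1 s.Y t else 0

def Gd (s : Sys j) (i : Fin j) (m d r : ℕ) (t : ℝ) : ℝ :=
  if m = 0 then lam s.α d * (s.Y 1 t * s.u i (d + 1) r t +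
      s.Kv i * m1 s.Y t * s.u i (d + 1) (r + 1) t - s.u i d r t)
  else s.eta d ^ (m + (4 - r)) * (((4 - r : ℕ) : ℝ) * s.Am t ^ (4 - r - 1) * Ad s t * s.V i d t +
    s.Am t ^ (4 - r) * (lam s.α d * (cc s.Y (s.Kv i) t * s.V i (d + 1) t - s.V i d t)))

/-- basic facts on the parameters -/
structure Bas (s : Sys j) : Prop where
  D1 : 1 ≤ s.D
  y0 : ∀ t, 0 ≤ t → 0 < s.Y 1 t
  y1 : ∀ t, 0 ≤ t → s.Y 1 t < 1
  yc : ∀ t, 0 ≤ t → HasDerivWithinAt (s.Y 1) (-(m1 s.Y t)) (Set.Ici 0) t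
  m0 : ∀ t, 0 ≤ t → 0 ≤ m1 s.Y t
  K2 : ∀ i, 2 ≤ s.Kv i
  KK : ∀ i, s.Kv i ≤ s.K
  KD : s.K * s.D ^ s.α = s.D
  cle : ∀ i t, 0 ≤ t → cc s.Y (s.Kv i) t ≤ cc s.Y s.K t
  c0 : ∀ t, 0 ≤ t → 0 ≤ cc s.Y s.K t
  ci0 : ∀ i t, 0 ≤ t → 0 ≤ cc s.Y (s.Kv i) t
  cdec : ∀ i t, s.tM ≤ t → cc s.Y (s.Kv i) t ≤ 2 * s.Kv i * Real.exp (-(t - s.tM))
  gam1 : ∀ i, s.gam i ≤ 1
  ep0 : 0 < s.ep
  α0 : 0 < s.α
  α1 : s.α < 1

theorem lam_pos (α : ℝ) {d : ℕ} (hd : 1 ≤ d) : 0 < lam α d := by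
  unfold lam
  exact Real.rpow_pos_of_pos (by exact_mod_cast hd) α

theorem Am_nonneg {s : Sys j} (B : Bas s) {t : ℝ} (ht : 0 ≤ t) : 0 ≤ s.Am t := by
  unfold Sys.Am
  have := B.y1 t ht
  have := B.D1
  apply le_min _ zero_le_one
  apply mul_nonneg (by positivity) (by linarith)

theorem Am_le {s : Sys j} (t : ℝ) : s.Am t ≤ 1 := by
  unfold Sys.Am
  exact min_le_right _ _

theorem eta_one_le {s : Sys j} (B : Bas s) (d : ℕ) : 1 ≤ s.eta d := by
  unfold Sys.eta
  have := B.D1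
  have : 0 ≤ (d : ℝ) / s.D := by positivity
  linarith

theorem eta_succ {s : Sys j} (d : ℕ) : s.eta (d + 1) = s.eta d + 1 / s.D := by
  unfold Sys.eta
  push_cast
  ring

theorem eta_succ_le {s : Sys j} (B : Bas s) (d : ℕ) : s.eta (d + 1) ≤ 2 * s.eta d := by
  rw [eta_succ]
  have h1 := eta_one_le B d
  have h2 : 1 / s.D ≤ 1 := by
    rw [div_le_one (by linarith [B.D1])]
    exact B.D1
  linarith

theorem eta_le_succ {s : Sys j} (B : Bas s) (d : ℕ) : s.eta d ≤ s.eta (d + 1) := by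
  rw [eta_succ]
  have : 0 < 1 / s.D := by have := B.D1; positivity
  linarith

/-- `λ_d ≤ D^α η_d` -/
theorem lam_le_eta {s : Sys j} (B : Bas s) (d : ℕ) : lam s.α d ≤ s.D ^ s.α * s.eta d := by
  have hD0 : 0 < s.D := by linarith [B.D1]
  unfold lam Sys.eta
  have h1 : (d : ℝ) ^ s.α = s.D ^ s.α * ((d : ℝ) / s.D) ^ s.α := by
    rw [← Real.mul_rpow hD0.le (by positivity), mul_div_cancel₀ _ hD0.ne']
  rw [h1]
  apply mul_le_mul_of_nonneg_left _ (by positivity)
  have hx : 0 ≤ (d : ℝ) / s.D := by positivity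
  rcases le_total ((d : ℝ) / s.D) 1 with h | h
  · have := Real.rpow_le_one hx h B.α0.le
    linarith
  · have : ((d : ℝ) / s.D) ^ s.α ≤ ((d : ℝ) / s.D) ^ (1 : ℝ) :=
      Real.rpow_le_rpow_of_exponent_le h B.α1.le
    rw [Real.rpow_one] at this
    linarith

theorem V_pos {s : Sys j} (F : Facts s) (i : Fin j) (d : ℕ) {t : ℝ} (ht : 0 ≤ t) :
    0 < s.V i d t := (F.hV i).pos d t ht

/-- `λ_d V_{d+1} ≤ 2 D^{α+ep} η_d V_d` -/
theorem ratio' {s : Sys j} (F : Facts s) (B : Bas s) (i : Fin j) {d : ℕ} (hd : 1 ≤ d) {t : ℝ}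
    (ht : 0 ≤ t) : lam s.α d * s.V i (d + 1) t ≤
      2 * s.D ^ (s.α + s.ep) * s.eta d * s.V i d t := by
  have hD0 : 0 < s.D := by linarith [B.D1]
  refine (F.ratio i d t hd ht).trans ?_
  apply mul_le_mul_of_nonneg_right _ (V_pos F i d ht).le
  have h1 : s.D ^ s.gam i ≤ s.D := by
    calc s.D ^ s.gam i ≤ s.D ^ (1 : ℝ) := Real.rpow_le_rpow_of_exponent_le B.D1 (B.gam1 i)
      _ = s.D := Real.rpow_one _
  have h2 : (s.D ^ s.gam i) ^ s.ep ≤ s.D ^ s.ep := Real.rpow_le_rpow (by positivity) h1 B.ep0.le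
  have h3 : (s.D ^ s.gam i) ^ s.α ≤ s.D ^ s.α := Real.rpow_le_rpow (by positivity) h1 B.α0.le
  have h4 := lam_le_eta B d
  have h5 := eta_one_le B d
  have h6 : 0 < s.D ^ s.α := Real.rpow_pos_of_pos hD0 _
  have h7 : (s.D ^ s.gam i) ^ s.α + lam s.α d ≤ 2 * (s.D ^ s.α * s.eta d) := by
    have : s.D ^ s.α ≤ s.D ^ s.α * s.eta d := le_mul_of_one_le_right h6.le h5
    linarith
  have h8 : 0 ≤ (s.D ^ s.gam i) ^ s.α + lam s.α d := by
    have := (lam_pos s.α hd).le
    positivity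
  calc (s.D ^ s.gam i) ^ s.ep * ((s.D ^ s.gam i) ^ s.α + lam s.α d)
      ≤ s.D ^ s.ep * (2 * (s.D ^ s.α * s.eta d)) := mul_le_mul h2 h7 h8 (by positivity)
    _ = 2 * s.D ^ (s.α + s.ep) * s.eta d := by
        rw [Real.rpow_add hD0]; ring

/-- difference of powers -/
theorem pow_diff {x y : ℝ} (hx : 0 ≤ x) (hxy : x ≤ y) (n : ℕ) :
    y ^ n - x ^ n ≤ n * (y - x) * y ^ (n - 1) := by
  induction n with
  | zero => simp
  | succ k ih =>
    have hy : 0 ≤ y := hx.trans hxy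
    rcases Nat.eq_zero_or_pos k with h | h
    · subst h; simp
    · have h1 : y ^ (k + 1) - x ^ (k + 1) = y * (y ^ k - x ^ k) + (y - x) * x ^ k := by ring
      have h2 : x ^ k ≤ y ^ k := pow_le_pow_left₀ hx hxy k
      have h3 : y * y ^ (k - 1) = y ^ k := by
        rw [← pow_succ']; congr 1; omega
      rw [h1, Nat.add_sub_cancel]
      calc y * (y ^ k - x ^ k) + (y - x) * x ^ k
          ≤ y * (k * (y - x) * y ^ (k - 1)) + (y - x) * y ^ k :=
            add_le_add (mul_le_mul_of_nonneg_left ih hy)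
              (mul_le_mul_of_nonneg_left h2 (by linarith))
        _ = k * (y - x) * (y * y ^ (k - 1)) + (y - x) * y ^ k := by ring
        _ = ((k + 1 : ℕ) : ℝ) * (y - x) * y ^ k := by rw [h3]; push_cast; ring

/-- `λ_d V_{d+1} (η_{d+1}^n - η_d^n) c ≤ μ η_d^n V_d` for `c ≤ c_0` -/
theorem mu_bound {s : Sys j} (F : Facts s) (B : Bas s) (i : Fin j) {d n : ℕ} (hd : 1 ≤ d)
    (hn : n ≤ j + 4) {t c : ℝ} (ht : 0 ≤ t) (hc' : c ≤ cc s.Y s.K t) :
    lam s.α d * c * s.V i (d + 1) t * (s.eta (d + 1) ^ n - s.eta d ^ n) ≤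
      s.mu t * (s.eta d ^ n * s.V i d t) := by
  have hD0 : 0 < s.D := by linarith [B.D1]
  have hV := V_pos F i d ht
  have he := eta_one_le B d
  rcases Nat.eq_zero_or_pos n with h | hn0
  · subst h
    have := B.c0 t ht
    have : 0 ≤ s.mu t := by unfold Sys.mu; positivity
    simp only [pow_zero, sub_self, mul_zero]
    positivity
  have h1 : s.eta (d + 1) ^ n - s.eta d ^ n ≤ n * (1 / s.D) * (2 * s.eta d) ^ (n - 1) := by
    have h2 := pow_diff (x := s.eta d) (y := s.eta (d + 1)) (by linarith) (eta_le_succ B d) n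
    have h3 : s.eta (d + 1) - s.eta d = 1 / s.D := by rw [eta_succ]; ring
    rw [h3] at h2
    refine h2.trans ?_
    apply mul_le_mul_of_nonneg_left _ (by positivity)
    exact pow_le_pow_left₀ (by linarith [eta_one_le B (d + 1)]) (eta_succ_le B d) _
  have h4 := ratio' F B i hd ht
  have hl := lam_pos s.α hd
  have hV1 := V_pos F i (d + 1) ht
  have h5 : 0 ≤ s.eta (d + 1) ^ n - s.eta d ^ n :=
    sub_nonneg.2 (pow_le_pow_left₀ (by linarith) (eta_le_succ B d) n)
  have h6 : (n : ℝ) * 2 ^ n ≤ ((j : ℝ) + 4) * 2 ^ (j + 5) := by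
    apply mul_le_mul (by exact_mod_cast hn) _ (by positivity) (by positivity)
    exact pow_le_pow_right₀ (by norm_num) (by omega)
  have h7 : s.eta d * s.eta d ^ (n - 1) = s.eta d ^ n := by
    rw [← pow_succ']; congr 1; omega
  have h8 : (2 : ℝ) * 2 ^ (n - 1) = 2 ^ n := by
    rw [← pow_succ']; congr 1; omega
  calc lam s.α d * c * s.V i (d + 1) t * (s.eta (d + 1) ^ n - s.eta d ^ n)
      = c * ((lam s.α d * s.V i (d + 1) t) * (s.eta (d + 1) ^ n - s.eta d ^ n)) := by ring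
    _ ≤ cc s.Y s.K t * ((2 * s.D ^ (s.α + s.ep) * s.eta d * s.V i d t) *
        (n * (1 / s.D) * (2 * s.eta d) ^ (n - 1))) := by
        apply mul_le_mul hc' _ (mul_nonneg (mul_nonneg hl.le hV1.le) h5) (B.c0 t ht)
        exact mul_le_mul h4 h1 h5 (by positivity)
    _ = (n * (2 * 2 ^ (n - 1))) * (s.D ^ (s.α + s.ep) / s.D) * cc s.Y s.K t *
        ((s.eta d * s.eta d ^ (n - 1)) * s.V i d t) := by
        rw [mul_pow]; ring
    _ = (n * 2 ^ n) * (s.D ^ (s.α + s.ep) / s.D) * cc s.Y s.K t *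
        (s.eta d ^ n * s.V i d t) := by rw [h7, h8]
    _ ≤ (((j : ℝ) + 4) * 2 ^ (j + 5)) * (s.D ^ (s.α + s.ep) / s.D) * cc s.Y s.K t *
        (s.eta d ^ n * s.V i d t) := by
        have := B.c0 t ht
        gcongr
    _ = s.mu t * (s.eta d ^ n * s.V i d t) := by
        unfold Sys.mu
        rw [Real.rpow_sub hD0, Real.rpow_one]

theorem V_deriv {s : Sys j} (F : Facts s) (i : Fin j) (d : ℕ) {t : ℝ} (ht : 0 ≤ t) :
    HasDerivWithinAt (s.V i d)
      (lam s.α d * (cc s.Y (s.Kv i) t * s.V i (d + 1) t - s.V i d t)) (Set.Ici 0) t :=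
  (F.hV i).deriv d t ht

theorem V_cont {s : Sys j} (F : Facts s) (i : Fin j) (d : ℕ) :
    ContinuousOn (s.V i d) (Set.Ici 0) := fun t ht => (V_deriv F i d ht).continuousWithinAt

theorem u_cont {s : Sys j} (F : Facts s) (i : Fin j) (d r : ℕ) :
    ContinuousOn (s.u i d r) (Set.Ici 0) := fun t ht => ((F.hu i).deriv d r t ht).continuousWithinAt

theorem Y_cont {s : Sys j} (B : Bas s) : ContinuousOn (s.Y 1) (Set.Ici 0) :=
  fun t ht => (B.yc t ht).continuousWithinAt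

theorem Am_cont {s : Sys j} (B : Bas s) : ContinuousOn (fun t => s.Am t) (Set.Ici 0) := by
  unfold Sys.Am
  apply ContinuousOn.inf _ continuousOn_const
  exact continuousOn_const.mul (continuousOn_const.sub (Y_cont B))

theorem Am_deriv {s : Sys j} (F : Facts s) (B : Bas s) {t : ℝ} (ht : 0 ≤ t) (ht1 : t ≠ s.a1) :
    HasDerivWithinAt (fun t => s.Am t) (Ad s t) (Set.Ici 0) t := by
  unfold Ad
  rcases lt_or_gt_of_ne ht1 with h | h
  · rw [if_pos h]
    have h1 : HasDerivWithinAt (fun t => (2:ℝ) ^ (j + 6) * s.D * (1 - s.Y 1 t))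
        ((2:ℝ) ^ (j + 6) * s.D * m1 s.Y t) (Set.Ici 0) t := by
      have := ((B.yc t ht).const_sub 1).const_mul ((2:ℝ) ^ (j + 6) * s.D)
      refine this.congr_deriv (by ring)
    apply h1.congr_of_eventuallyEq
    · have h2 : ∀ᶠ x in 𝓝[Set.Ici 0] t, x < s.a1 :=
        nhdsWithin_le_nhds (Iio_mem_nhds h)
      filter_upwards [h2, self_mem_nhdsWithin] with x hx hx0
      unfold Sys.Am
      exact min_eq_left (F.a1A x hx0 hx.le)
    · unfold Sys.Am
      exact min_eq_left (F.a1A t ht h.le)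
  · rw [if_neg (not_lt.2 h.le)]
    have h1 : HasDerivWithinAt (fun _ : ℝ => (1:ℝ)) 0 (Set.Ici 0) t := hasDerivWithinAt_const _ _ _
    apply h1.congr_of_eventuallyEq
    · have h2 : ∀ᶠ x in 𝓝[Set.Ici 0] t, s.a1 < x :=
        nhdsWithin_le_nhds (Ioi_mem_nhds h)
      filter_upwards [h2] with x hx
      unfold Sys.Am
      exact min_eq_right (F.a1B x hx.le)
    · unfold Sys.Am
      exact min_eq_right (F.a1B t h.le)

theorem G_cont {s : Sys j} (F : Facts s) (B : Bas s) (i : Fin j) (m d r : ℕ) :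
    ContinuousOn (s.Gf i m d r) (Set.Ici 0) := by
  unfold Sys.Gf
  by_cases hm : m = 0
  · simp only [hm, if_true]
    exact u_cont F i d r
  · simp only [hm, if_false]
    exact (continuousOn_const.mul ((Am_cont B).pow _)).mul (V_cont F i d)

theorem G_nonneg {s : Sys j} (F : Facts s) (B : Bas s) (i : Fin j) (m d r : ℕ) {t : ℝ}
    (ht : 0 ≤ t) : 0 ≤ s.Gf i m d r t := by
  unfold Sys.Gf
  have h1 := eta_one_le B d
  have h2 := Am_nonneg B ht
  have h3 := (V_pos F i d ht).le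
  have h4 := (F.hu i).nonneg d r t ht
  split_ifs
  · exact h4
  · positivity

theorem G_deriv {s : Sys j} (F : Facts s) (B : Bas s) (i : Fin j) (m d r : ℕ) {t : ℝ}
    (ht : 0 ≤ t) (ht1 : t ≠ s.a1) :
    HasDerivWithinAt (s.Gf i m d r) (Gd s i m d r t) (Set.Ici 0) t := by
  unfold Sys.Gf Gd
  by_cases hm : m = 0
  · simp only [hm, if_true]
    exact (F.hu i).deriv d r t ht
  · simp only [hm, if_false]
    have h1 := ((Am_deriv F B ht ht1).pow (4 - r)).mul (V_deriv F i d ht)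
    have h2 := h1.const_mul (s.eta d ^ (m + (4 - r)))
    have h3 : (fun t => s.eta d ^ (m + (4 - r)) * s.Am t ^ (4 - r) * s.V i d t) =
        fun t => s.eta d ^ (m + (4 - r)) * (s.Am t ^ (4 - r) * s.V i d t) := by
      funext t; ring
    rw [h3]
    exact h2

theorem G_birth {s : Sys j} (F : Facts s) (B : Bas s) (i : Fin j) {m d r : ℕ} (hm : m + 1 ≤ j)
    (hd : 1 ≤ d) {t : ℝ} (ht : 0 ≤ t) :
    lam s.α d * s.Gf i m (d + 1) r t ≤ s.kap * s.Gf i (m + 1) d r t := by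
  have hD0 : 0 < s.D := by linarith [B.D1]
  have hA := Am_nonneg B ht
  have he := eta_one_le B d
  have hes := eta_succ_le B d
  have he1 := eta_one_le B (d + 1)
  have hV := V_pos F i d ht
  have hV1 := V_pos F i (d + 1) ht
  have hl := lam_pos s.α hd
  have h4 := ratio' F B i hd ht
  -- bound of the left side by the formula with `m`
  have h5 : s.Gf i m (d + 1) r t ≤ s.eta (d + 1) ^ (m + (4 - r)) * s.Am t ^ (4 - r) *
      s.V i (d + 1) t := by
    unfold Sys.Gf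
    split_ifs with h
    · subst h
      rw [Nat.zero_add]
      exact F.marks i (d + 1) r t (by omega) ht
    · exact le_rfl
  have h6 : s.Gf i (m + 1) d r t = s.eta d ^ (m + 1 + (4 - r)) * s.Am t ^ (4 - r) *
      s.V i d t := by
    unfold Sys.Gf
    rw [if_neg (by omega)]
  rw [h6]
  have hpow : s.eta (d + 1) ^ (m + (4 - r)) ≤ (2 * s.eta d) ^ (m + (4 - r)) :=
    pow_le_pow_left₀ (by linarith) hes _
  have h7 : (2 : ℝ) * 2 ^ (m + (4 - r)) ≤ 2 ^ (j + 6) := by
    rw [← pow_succ']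
    exact pow_le_pow_right₀ (by norm_num) (by omega)
  calc lam s.α d * s.Gf i m (d + 1) r t
      ≤ lam s.α d * (s.eta (d + 1) ^ (m + (4 - r)) * s.Am t ^ (4 - r) * s.V i (d + 1) t) :=
        mul_le_mul_of_nonneg_left h5 hl.le
    _ = (s.eta (d + 1) ^ (m + (4 - r)) * s.Am t ^ (4 - r)) * (lam s.α d * s.V i (d + 1) t) := by
        ring
    _ ≤ ((2 * s.eta d) ^ (m + (4 - r)) * s.Am t ^ (4 - r)) *
        (2 * s.D ^ (s.α + s.ep) * s.eta d * s.V i d t) := by
        apply mul_le_mul (mul_le_mul_of_nonneg_right hpow (by positivity)) h4 (by positivity)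
          (by positivity)
    _ = (2 * 2 ^ (m + (4 - r))) * s.D ^ (s.α + s.ep) * (s.eta d ^ (m + 1 + (4 - r)) *
        s.Am t ^ (4 - r) * s.V i d t) := by
        rw [mul_pow, show m + 1 + (4 - r) = (m + (4 - r)) + 1 by omega, pow_succ (s.eta d)]
        ring
    _ ≤ 2 ^ (j + 6) * s.D ^ (s.α + s.ep) * (s.eta d ^ (m + 1 + (4 - r)) *
        s.Am t ^ (4 - r) * s.V i d t) := by gcongr
    _ = s.kap * (s.eta d ^ (m + 1 + (4 - r)) * s.Am t ^ (4 - r) * s.V i d t) := by
        unfold Sys.kap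
        rfl

/-- the main differential inequality -/
theorem G_ineq {s : Sys j} (F : Facts s) (B : Bas s) (i : Fin j) {m d r : ℕ} (hm : m ≤ j)
    (hd : 1 ≤ d) {t : ℝ} (ht : 0 ≤ t) :
    lam s.α d * (s.Y 1 t * s.Gf i m (d + 1) r t + s.Kv i * m1 s.Y t * s.Gf i m (d + 1) (r + 1) t -
      s.Gf i m d r t) - (if m = 0 then 0 else s.mu t * s.Gf i m d r t) ≤ Gd s i m d r t := by
  by_cases hm0 : m = 0
  · subst hm0
    unfold Sys.Gf Gd
    simp
  have hD0 : 0 < s.D := by linarith [B.D1]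
  have hA := Am_nonneg B ht
  have hA1 : s.Am t ≤ 1 := Am_le t
  have he := eta_one_le B d
  have hes := eta_succ_le B d
  have he1 := eta_one_le B (d + 1)
  have hV := V_pos F i d ht
  have hV1 := V_pos F i (d + 1) ht
  have hl := lam_pos s.α hd
  have hy := B.y0 t ht
  have hm1 := B.m0 t ht
  have hK := B.K2 i
  have hKm : 0 ≤ s.Kv i * m1 s.Y t := mul_nonneg (by linarith) hm1
  have hyc : s.Y 1 t ≤ cc s.Y s.K t := by
    refine le_trans ?_ (B.cle i t ht)
    unfold cc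
    linarith
  rw [if_neg hm0]
  unfold Sys.Gf Gd
  simp only [hm0, if_false]
  -- case distinction on `q`
  by_cases hq : (∃ _ : r < 4, t < s.a1)
  · obtain ⟨hr, hta⟩ := hq
    -- `q ≥ 1` and `t < a1`
    obtain ⟨q, hq⟩ : ∃ q, 4 - r = q + 1 := ⟨3 - r, by omega⟩
    have hq' : 4 - (r + 1) = q := by omega
    have hqn : m + (q + 1) ≤ j + 4 := by omega
    rw [hq, hq', Nat.add_sub_cancel]
    have hAd : Ad s t = (2:ℝ) ^ (j + 6) * s.D * m1 s.Y t := by
      unfold Ad; rw [if_pos hta]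
    have hmu := mu_bound F B i (n := m + (q + 1)) hd hqn ht hyc
    -- the mark term
    have hmark : lam s.α d * (s.Kv i * m1 s.Y t) * s.V i (d + 1) t * s.eta (d + 1) ^ (m + q) ≤
        s.eta d ^ (m + (q + 1)) * (((q + 1 : ℕ) : ℝ) * Ad s t * s.V i d t) := by
      have h1 := lam_le_eta B d
      have h2 := F.early i d t hd ht hta.le
      have h3 : s.eta (d + 1) ^ (m + q) ≤ (2 * s.eta d) ^ (m + q) :=
        pow_le_pow_left₀ (by linarith) hes _
      have h4 : s.Kv i * m1 s.Y t ≤ s.K * m1 s.Y t := mul_le_mul_of_nonneg_right (B.KK i) hm1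
      have h5 : (2:ℝ) * 2 ^ (m + q) ≤ ((q + 1 : ℕ) : ℝ) * 2 ^ (j + 6) := by
        have h6 : (2:ℝ) * 2 ^ (m + q) ≤ 2 ^ (j + 6) := by
          rw [← pow_succ']
          exact pow_le_pow_right₀ (by norm_num) (by omega)
        have h7 : (1:ℝ) ≤ ((q + 1 : ℕ) : ℝ) := by exact_mod_cast Nat.le_add_left 1 q
        have h8 : (0:ℝ) ≤ 2 ^ (j + 6) := by positivity
        nlinarith
      have hDa : 0 < s.D ^ s.α := Real.rpow_pos_of_pos hD0 _
      have hK0 : 0 ≤ s.K := by linarith [B.KK i]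
      calc lam s.α d * (s.Kv i * m1 s.Y t) * s.V i (d + 1) t * s.eta (d + 1) ^ (m + q)
          ≤ (s.D ^ s.α * s.eta d) * (s.K * m1 s.Y t) * (2 * s.V i d t) *
            (2 * s.eta d) ^ (m + q) := by gcongr
        _ = (2 * 2 ^ (m + q)) * (s.K * s.D ^ s.α) * m1 s.Y t * (s.eta d ^ (m + q) * s.eta d) *
            s.V i d t := by rw [mul_pow]; ring
        _ = (2 * 2 ^ (m + q)) * s.D * m1 s.Y t * s.eta d ^ (m + (q + 1)) * s.V i d t := by
            rw [B.KD, ← pow_succ, Nat.add_assoc]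
        _ ≤ (((q + 1 : ℕ) : ℝ) * 2 ^ (j + 6)) * s.D * m1 s.Y t * s.eta d ^ (m + (q + 1)) *
            s.V i d t := by gcongr
        _ = _ := by rw [hAd]; ring
    have hmark' := mul_le_mul_of_nonneg_right hmark (pow_nonneg hA q)
    have hmu' := mul_le_mul_of_nonneg_right hmu (pow_nonneg hA (q + 1))
    have hdrop : 0 ≤ lam s.α d * (s.Kv i * m1 s.Y t) * s.V i (d + 1) t *
        (s.eta d ^ (m + (q + 1)) * s.Am t ^ (q + 1)) := by positivity
    have hc : cc s.Y (s.Kv i) t = s.Y 1 t + s.Kv i * m1 s.Y t := rfl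
    rw [hc]
    generalize s.eta (d + 1) ^ (m + (q + 1)) = E1 at *
    generalize s.eta (d + 1) ^ (m + q) = E2 at *
    generalize s.eta d ^ (m + (q + 1)) = E3 at *
    have e1 : lam s.α d * (s.Y 1 t * (E1 * s.Am t ^ (q + 1) * s.V i (d + 1) t) +
          s.Kv i * m1 s.Y t * (E2 * s.Am t ^ q * s.V i (d + 1) t) -
          E3 * s.Am t ^ (q + 1) * s.V i d t) - s.mu t * (E3 * s.Am t ^ (q + 1) * s.V i d t) =
        lam s.α d * s.Y 1 t * s.V i (d + 1) t * (E1 - E3) * s.Am t ^ (q + 1) +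
        lam s.α d * (s.Kv i * m1 s.Y t) * s.V i (d + 1) t * E2 * s.Am t ^ q +
        E3 * (s.Am t ^ (q + 1) * (lam s.α d * (s.Y 1 t * s.V i (d + 1) t - s.V i d t))) -
        s.mu t * (E3 * s.V i d t) * s.Am t ^ (q + 1) := by ring
    have e2 : E3 * (((q + 1 : ℕ) : ℝ) * s.Am t ^ q * Ad s t * s.V i d t +
          s.Am t ^ (q + 1) * (lam s.α d * ((s.Y 1 t + s.Kv i * m1 s.Y t) * s.V i (d + 1) t -
            s.V i d t))) =
        E3 * (((q + 1 : ℕ) : ℝ) * Ad s t * s.V i d t) * s.Am t ^ q +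
        E3 * (s.Am t ^ (q + 1) * (lam s.α d * (s.Y 1 t * s.V i (d + 1) t - s.V i d t))) +
        lam s.α d * (s.Kv i * m1 s.Y t) * s.V i (d + 1) t * (E3 * s.Am t ^ (q + 1)) := by ring
    rw [e1, e2]
    linarith
  · -- `q = 0` or `t ≥ a1`
    have hmu := mu_bound F B i (n := m + (4 - r)) hd (by omega) ht (B.cle i t ht)
    have hAdz : ((4 - r : ℕ) : ℝ) * s.Am t ^ (4 - r - 1) * Ad s t * s.V i d t = 0 := by
      by_cases hr : r < 4
      · have : ¬ t < s.a1 := fun h => hq ⟨hr, h⟩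
        unfold Ad
        rw [if_neg this]
        ring
      · have : 4 - r = 0 := by omega
        rw [this]
        simp
    have hAmz : s.Am t ^ (4 - (r + 1)) = s.Am t ^ (4 - r) := by
      by_cases hr : r < 4
      · have h1 : ¬ t < s.a1 := fun h => hq ⟨hr, h⟩
        have h2 : s.Am t = 1 := by
          unfold Sys.Am
          exact min_eq_right (F.a1B t (not_lt.1 h1))
        rw [h2]; simp
      · have h1 : 4 - r = 0 := by omega
        have h2 : 4 - (r + 1) = 0 := by omega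
        rw [h1, h2]
    have hpw : s.eta (d + 1) ^ (m + (4 - (r + 1))) ≤ s.eta (d + 1) ^ (m + (4 - r)) :=
      pow_le_pow_right₀ he1 (by omega)
    have hmu' := mul_le_mul_of_nonneg_right hmu (pow_nonneg hA (4 - r))
    have hc : cc s.Y (s.Kv i) t = s.Y 1 t + s.Kv i * m1 s.Y t := rfl
    rw [hAdz, hAmz]
    have hstep : s.Kv i * m1 s.Y t * (s.eta (d + 1) ^ (m + (4 - (r + 1))) * s.Am t ^ (4 - r) *
        s.V i (d + 1) t) ≤ s.Kv i * m1 s.Y t * (s.eta (d + 1) ^ (m + (4 - r)) *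
        s.Am t ^ (4 - r) * s.V i (d + 1) t) := by gcongr
    have hstep' := mul_le_mul_of_nonneg_left hstep hl.le
    rw [hc] at hmu' ⊢
    generalize s.eta (d + 1) ^ (m + (4 - r)) = E1 at *
    generalize s.eta (d + 1) ^ (m + (4 - (r + 1))) = E2 at *
    generalize s.eta d ^ (m + (4 - r)) = E3 at *
    generalize s.Am t ^ (4 - r) = A at *
    linarith [hstep', hmu']

/-- `Gf ≤ η^{m+q} V` -/
theorem G_le {s : Sys j} (F : Facts s) (i : Fin j) {m d r : ℕ} (hd : 1 ≤ d) {t : ℝ}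
    (ht : 0 ≤ t) : s.Gf i m d r t ≤ s.eta d ^ (m + (4 - r)) * s.Am t ^ (4 - r) * s.V i d t := by
  unfold Sys.Gf
  split_ifs with h
  · subst h
    rw [Nat.zero_add]
    exact F.marks i d r t hd ht
  · exact le_rfl

theorem V_tendsto {s : Sys j} (F : Facts s) (B : Bas s) (i : Fin j) {d : ℕ} (hd : 1 ≤ d) :
    Tendsto (s.V i d) atTop (𝓝 0) := by
  set R := (s.D ^ s.gam i) ^ s.ep * ((s.D ^ s.gam i) ^ s.α + lam s.α d) with hR
  have hD0 : 0 < s.D := by linarith [B.D1]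
  have hl := lam_pos s.α hd
  have hR0 : 0 ≤ R := by positivity
  have hK := B.K2 i
  have h1 : Tendsto (fun t : ℝ => 2 * s.Kv i * Real.exp (-(t - s.tM)) * R) atTop (𝓝 0) := by
    have h2 : Tendsto (fun t : ℝ => Real.exp (-(t - s.tM))) atTop (𝓝 0) :=
      Real.tendsto_exp_neg_atTop_nhds_zero.comp (tendsto_atTop_add_const_right _ _ tendsto_id)
    have := (h2.const_mul (2 * s.Kv i)).mul_const R
    simpa using this
  have h3 : ∀ᶠ t : ℝ in atTop, 2 * s.Kv i * Real.exp (-(t - s.tM)) * R < lam s.α d / 2 :=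
    h1.eventually_lt_const (by positivity)
  obtain ⟨T1, hT1⟩ := eventually_atTop.1 h3
  set T0 := max T1 s.tM with hT0
  have hT00 : 0 ≤ T0 := F.tMpos.le.trans (le_max_right _ _)
  have hder : ∀ t ∈ interior (Set.Ici T0), HasDerivAt (fun t => Real.exp (lam s.α d / 2 * t) *
      s.V i d t) (Real.exp (lam s.α d / 2 * t) * (lam s.α d / 2 * s.V i d t +
        lam s.α d * (cc s.Y (s.Kv i) t * s.V i (d + 1) t - s.V i d t))) t := by
    intro t ht
    rw [interior_Ici] at ht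
    have ht0 : 0 < t := lt_of_le_of_lt hT00 ht
    have h4 := (V_deriv F i d ht0.le).hasDerivAt (Ici_mem_nhds ht0)
    have h5 : HasDerivAt (fun t => Real.exp (lam s.α d / 2 * t))
        (Real.exp (lam s.α d / 2 * t) * (lam s.α d / 2)) t := by
      have := ((hasDerivAt_id t).const_mul (lam s.α d / 2)).exp
      simpa using this
    exact (h5.mul h4).congr_deriv (by ring)
  have hanti : AntitoneOn (fun t => Real.exp (lam s.α d / 2 * t) * s.V i d t) (Set.Ici T0) := by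
    apply antitoneOn_of_deriv_nonpos (convex_Ici T0)
    · apply ContinuousOn.mul (by fun_prop)
      exact (V_cont F i d).mono (Set.Ici_subset_Ici.2 hT00)
    · exact fun t ht => (hder t ht).differentiableAt.differentiableWithinAt
    · intro t ht
      rw [(hder t ht).deriv]
      rw [interior_Ici] at ht
      have ht0 : 0 ≤ t := (lt_of_le_of_lt hT00 ht).le
      have htM : s.tM ≤ t := (le_max_right T1 s.tM).trans (le_of_lt ht)
      have h6 := F.ratio i d t hd ht0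
      have h7 := B.cdec i t htM
      have h8 := hT1 t ((le_max_left T1 s.tM).trans (le_of_lt ht))
      have h9 := (V_pos F i d ht0).le
      have hc0 := B.ci0 i t ht0
      have h10 : cc s.Y (s.Kv i) t * (lam s.α d * s.V i (d + 1) t) ≤
          lam s.α d / 2 * s.V i d t := by
        calc cc s.Y (s.Kv i) t * (lam s.α d * s.V i (d + 1) t)
            ≤ cc s.Y (s.Kv i) t * (R * s.V i d t) := mul_le_mul_of_nonneg_left h6 hc0
          _ ≤ (2 * s.Kv i * Real.exp (-(t - s.tM))) * (R * s.V i d t) :=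
              mul_le_mul_of_nonneg_right h7 (mul_nonneg hR0 h9)
          _ = (2 * s.Kv i * Real.exp (-(t - s.tM)) * R) * s.V i d t := by ring
          _ ≤ lam s.α d / 2 * s.V i d t := mul_le_mul_of_nonneg_right h8.le h9
      apply mul_nonpos_of_nonneg_of_nonpos (Real.exp_pos _).le
      linarith
  have hlim : Tendsto (fun t : ℝ => Real.exp (-(lam s.α d / 2 * t)) *
      (Real.exp (lam s.α d / 2 * T0) * s.V i d T0)) atTop (𝓝 0) := by
    have h2 : Tendsto (fun t : ℝ => Real.exp (-(lam s.α d / 2 * t))) atTop (𝓝 0) :=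
      Real.tendsto_exp_neg_atTop_nhds_zero.comp (tendsto_id.const_mul_atTop (by positivity))
    simpa using h2.mul_const _
  refine squeeze_zero' ?_ ?_ hlim
  · filter_upwards [eventually_ge_atTop 0] with t ht
    exact (V_pos F i d ht).le
  · filter_upwards [eventually_ge_atTop T0] with t ht
    have h4 := hanti (Set.mem_Ici.2 le_rfl) (Set.mem_Ici.2 ht) ht
    simp only at h4
    rw [Real.exp_neg, inv_mul_eq_div, le_div_iff₀ (Real.exp_pos _), mul_comm]
    exact h4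

theorem G_tendsto {s : Sys j} (F : Facts s) (B : Bas s) (i : Fin j) (m : ℕ) {d : ℕ} (r : ℕ)
    (hd : 1 ≤ d) : Tendsto (s.Gf i m d r) atTop (𝓝 0) := by
  have h1 := (V_tendsto F B i hd).const_mul (s.eta d ^ (m + (4 - r)))
  rw [mul_zero] at h1
  refine squeeze_zero' ?_ ?_ h1
  · filter_upwards [eventually_ge_atTop 0] with t ht
    exact G_nonneg F B i m d r ht
  · filter_upwards [eventually_ge_atTop 0] with t ht
    refine (G_le F i hd ht).trans ?_
    have h2 := eta_one_le B d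
    have h3 : s.Am t ^ (4 - r) ≤ 1 := pow_le_one₀ (Am_nonneg B ht) (Am_le t)
    have h4 := (V_pos F i d ht).le
    have h5 : 0 ≤ s.eta d ^ (m + (4 - r)) := by positivity
    calc s.eta d ^ (m + (4 - r)) * s.Am t ^ (4 - r) * s.V i d t
        ≤ s.eta d ^ (m + (4 - r)) * 1 * s.V i d t := by gcongr
      _ = _ := by ring

/-- a continuous function bounded after `T` is bounded -/
theorem bdd_of {f : ℝ → ℝ} (hf : ContinuousOn f (Set.Ici 0)) {T B : ℝ}
    (hB : ∀ t, T ≤ t → f t ≤ B) : ∃ B', ∀ t, 0 ≤ t → f t ≤ B' := by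
  have h1 : ContinuousOn f (Set.Icc 0 T) := hf.mono Set.Icc_subset_Ici_self
  obtain ⟨B1, hB1⟩ := (isCompact_Icc.bddAbove_image h1)
  refine ⟨max B B1, fun t ht => ?_⟩
  rcases le_total t T with h | h
  · exact (hB1 ⟨t, ⟨ht, h⟩, rfl⟩).trans (le_max_right _ _)
  · exact (hB t h).trans (le_max_left _ _)

theorem x_bounds {s : Sys j} (F : Facts s) (B : Bas s) (i : Fin j) {m : ℕ} (hm : m ≤ j) {t : ℝ}
    (ht : 0 ≤ t) : s.Gf i m 1 0 t ≤ s.x4 i t ∧ s.Gf i m 1 0 t ≤ s.x3 i t ∧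
      s.Gf i m 1 1 t ≤ s.x3 i t := by
  have he : s.eta 1 ≤ 2 := by
    unfold Sys.eta
    have : ((1 : ℕ) : ℝ) / s.D ≤ 1 := by
      rw [div_le_one (by linarith [B.D1])]
      simpa using B.D1
    linarith
  have he0 := eta_one_le B 1
  have hA := Am_nonneg B ht
  have hA1 : s.Am t ≤ 1 := Am_le t
  have hV := (V_pos F i 1 ht).le
  have h4 : ∀ n, n ≤ j + 4 → s.eta 1 ^ n ≤ 2 ^ (j + 4) := fun n hn =>
    (pow_le_pow_left₀ (by linarith) he n).trans (pow_le_pow_right₀ (by norm_num) hn)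
  have h5 : s.Am t ^ 4 ≤ s.Am t ^ 3 := pow_le_pow_of_le_one hA hA1 (by norm_num)
  have h0 := G_le (m := m) (r := 0) F i le_rfl ht
  have h1 := G_le (m := m) (r := 1) F i le_rfl ht
  simp only [Nat.sub_zero] at h0
  have h43 : 4 - 1 = 3 := rfl
  rw [h43] at h1
  unfold Sys.x4 Sys.x3
  refine ⟨h0.trans ?_, h0.trans ?_, h1.trans ?_⟩
  · have := h4 (m + 4) (by omega)
    gcongr
  · have := h4 (m + 4) (by omega)
    gcongr
  · have := h4 (m + 3) (by omega)
    gcongr

theorem super (h1 : S_CB) (_h2 : S_VV) (h3 : S_ZB) (h4 : S_EB) (_h5 : S_VEX) (h6 : S_YF)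
    (_h7 : S_TM) (_h8 : S_UC) : S_SUPER := by
  intro α e0 ep e1 N j hP he1
  obtain ⟨K1, hK1⟩ := h1 α e0 ep e1 N j hP he1
  obtain ⟨K3, hK3⟩ := h3 α e0 ep e1 N j hP he1
  obtain ⟨K4, hK4⟩ := h4 α e0 ep e1 N j hP he1
  refine ⟨max K1 (max K3 K4), fun s ha he0 hep hN hes hK F J hJ => ?_⟩
  obtain ⟨cND, cKv, cc1, cKD, cc2⟩ := hK1 s ha he0 hep hN hes ((le_max_left _ _).trans hK) F
  obtain ⟨zb1, zb2⟩ := hK3 s ha he0 hep hN hes
    ((le_max_left _ _).trans ((le_max_right _ _).trans hK)) F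
  obtain ⟨eb1, eb2, eb3, eb4⟩ := hK4 s ha he0 hep hN hes
    ((le_max_right _ _).trans ((le_max_right _ _).trans hK)) F
  have hz0 : 0 < s.z := by linarith [F.z2]
  obtain ⟨-, -, -, yf4, yf5, -, -⟩ := h6 s.α s.z s.Y F.par.a0 F.par.a1' hz0 F.z1 F.hY
  have hy1 : ∀ t, 0 ≤ t → s.Y 1 t < 1 := fun t ht => lt_of_le_of_lt (F.hY.le 1 t ht) F.z1
  have hm0 : ∀ t, 0 ≤ t → 0 ≤ m1 s.Y t := fun t ht =>
    (mul_nonneg (F.hY.pos 1 t ht).le (by linarith [hy1 t ht])).trans (yf4 t ht).1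
  have hi : (⟨0, F.par.j1⟩ : Fin j) = ⟨0, F.par.j1⟩ := rfl
  have hKpos : 0 ≤ s.K := by linarith [F.par.K1]
  have B : Bas s := by
    refine ⟨?_, fun t ht => F.hY.pos 1 t ht, hy1, yf5, hm0, fun i => (cKv i).1,
      fun i => (cKv i).2, cKD, fun i t ht => (cc2 i t ht).1, ?_, fun i t ht => (cc2 i t ht).2.2.2.le,
      fun i t ht => (cc1 i t ht).2.1, ?_, F.par.eppos, F.par.a0, F.par.a1'⟩
    · have : (3 : ℝ) ≤ s.N := by exact_mod_cast F.par.N3
      linarith
    · intro t ht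
      unfold cc
      have h9 := F.hY.pos 1 t ht
      have h10 := hm0 t ht
      positivity
    · intro i
      unfold Sys.gam Sys.ei
      have := F.par.e0pos
      split_ifs
      · simp
      · have : 0 ≤ s.e0 * (1 / (16 * (s.N : ℝ))) ^ i.val := by positivity
        linarith
  have hD0 : 0 < s.D := by linarith [B.D1]
  refine ⟨Gd s, fun i t => s.mu t * s.Z i t + s.kap * s.x4 i t,
    fun t => (1 + s.K) * (32 / (1 - s.Y 1 t) ^ 2) *
      ∑ w, s.x3 w t * ∏ l ∈ Finset.univ.erase w, s.Z l t, ?_⟩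
  exact
    { α0 := F.par.a0
      α1 := F.par.a1'
      z0 := hz0
      z1 := F.z1
      hY := F.hY
      hJ := hJ
      Knn := fun i => by linarith [B.K2 i]
      KKm := B.KK
      gnn := fun r => by unfold gM; split_ifs <;> norm_num
      mnn := fun t ht => by
        have := B.c0 t ht
        unfold Sys.mu
        positivity
      knn := fun t ht => by unfold Sys.kap; positivity
      Gcont := fun i m d r => G_cont F B i m d r
      Gnn := fun i m d r t ht => G_nonneg F B i m d r ht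
      Gder := fun i m d r t ht ht1 => G_deriv F B i m d r ht ht1
      Gineq := fun i m d r t hm hd ht _ => G_ineq F B i hm hd ht
      Gbirth := fun i m d r t hm hd ht => G_birth F B i hm hd ht
      Ginit := fun i d r _ => by
        unfold Sys.Gf
        rw [if_pos rfl, (F.hu i).init d r]
        unfold gM g4
        by_cases h : 4 ≤ r
        · simp only [h, true_and, if_true]
          split_ifs <;> norm_num
        · simp [h]
      Gx4 := fun i m t hm ht => (x_bounds F B i hm ht).1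
      Gx3 := fun i m t hm ht => (x_bounds F B i hm ht).2
      Znn := F.Znn
      Zder := F.Zd
      Zineq := fun i t _ => le_rfl
      Enn := F.Enn
      Eder := F.Ed
      Eineq := fun t _ => le_rfl
      Glim := fun i m d r _ hd => G_tendsto F B i m r hd
      Zbd := fun i => bdd_of (fun t ht => (F.Zd i t ht).continuousWithinAt)
        (fun t ht => zb2 i t ht)
      Ebd := bdd_of (fun t ht => (F.Ed t ht).continuousWithinAt) (fun t ht => eb4 t ht) }

end

end Pool.Agent.TH175.J2298
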